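import Pool.Agent.helper4.NF.SpecA

/-!
# Project nf, module EXA: elementary facts
-/

set_option autoImplicit false

open Complex MeasureTheory

namespace Pool.Agent.NF

open Pool.Agent.helper84.DM Pool.Agent.helper78.ED Pool.Agent.DH Pool.Agent.ZD

theorem EXA_norm (x : ℝ) : ‖ex x‖ = 1 := by
  unfold ex
  exact Complex.norm_exp_ofReal_mul_I x

theorem EXA_add (x y : ℝ) : ex (x + y) = ex x * ex y := by
  unfold ex
  rw [← Complex.exp_add]
  congr 1
  push_cast
  ring

theorem EXA_conj (x : ℝ) : (starRingEnd ℂ) (ex x) = ex (-x) := by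
  unfold ex
  rw [← Complex.exp_conj]
  congr 1
  rw [map_mul, Complex.conj_ofReal, Complex.conj_I]
  push_cast
  ring

theorem EXA_zero : ex 0 = 1 := by
  unfold ex
  simp

theorem EXA_cpow (n : ℕ) (u : ℝ) (hn : 1 ≤ n) :
    (n : ℂ) ^ (-((u : ℂ) * I)) = ex (-(u * Real.log n)) := by
  have h0 : (n : ℂ) ≠ 0 := by exact_mod_cast (by omega : n ≠ 0)
  rw [Complex.cpow_def_of_ne_zero h0]
  unfold ex
  congr 1
  rw [← Complex.natCast_log]
  push_cast
  ring

theorem EXA (hM : BMU_stmt) : EXA_stmt := by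
  refine ⟨EXA_norm, EXA_add, EXA_conj, EXA_zero, EXA_cpow, ?_, ?_, ?_, hM⟩
  · intro A b u h0
    unfold DG
    apply Finset.sum_congr rfl
    intro n hn
    have h1 : 1 ≤ n := by
      rcases Nat.eq_zero_or_pos n with h | h
      · rw [h] at hn
        exact absurd hn h0
      · exact h
    rw [EXA_cpow n u h1]
  · intro X u
    unfold BX
    apply Finset.sum_congr rfl
    intro k hk
    rw [EXA_cpow k u (Finset.mem_Icc.1 hk).1]
  · intro X
    unfold BX mu
    rw [Complex.ofReal_sum]
    apply Finset.sum_congr rfl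
    intro k hk
    rw [EXA_cpow k 0 (Finset.mem_Icc.1 hk).1, zero_mul, neg_zero, EXA_zero, mul_one]

end Pool.Agent.NF
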